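import Pool.Agent.K3h88.LCT.Stm

/-!
Brick RNK of the project LCT of helper88: Euler characteristic of the star complex.
-/

set_option autoImplicit false

namespace Pool.Agent.K3h41.LCT

open Finset Pool.Agent.Helper611 Pool.Agent.Helper611.ZBase Pool.Agent.K3h88.LCT

section EL

variable {n : ℕ}

/-- functions supported on a finite set -/
def elS (S : Finset (Finset (Fin n))) : Submodule (ZMod 2) (Finset (Fin n) → ZMod 2) where
  carrier := {c | ∀ σ, σ ∉ S → c σ = 0}
  add_mem' := by
    intro a b ha hb σ hσ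
    show a σ + b σ = 0
    rw [ha σ hσ, hb σ hσ, add_zero]
  zero_mem' := fun _ _ => rfl
  smul_mem' := by
    intro r a ha σ hσ
    show r • a σ = 0
    rw [ha σ hσ, smul_zero]

/-- functions supported on `S` are functions on `S` -/
def elEquiv (S : Finset (Finset (Fin n))) : elS S ≃ₗ[ZMod 2] (S → ZMod 2) where
  toFun c := fun s => c.1 s.1
  map_add' _ _ := rfl
  map_smul' _ _ := rfl
  invFun g := ⟨fun σ => if h : σ ∈ S then g ⟨σ, h⟩ else 0, fun σ hσ => by
    show (if h : σ ∈ S then g ⟨σ, h⟩ else 0) = 0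
    rw [dif_neg hσ]⟩
  left_inv c := by
    apply Subtype.ext
    funext σ
    show (if h : σ ∈ S then c.1 σ else 0) = c.1 σ
    by_cases h : σ ∈ S
    · rw [dif_pos h]
    · rw [dif_neg h, c.2 σ h]
  right_inv g := by
    funext s
    show (if h : s.1 ∈ S then g ⟨s.1, h⟩ else 0) = g s
    rw [dif_pos s.2]

theorem elS_finrank (S : Finset (Finset (Fin n))) : Module.finrank (ZMod 2) (elS S) = S.card := by
  rw [(elEquiv S).finrank_eq, Module.finrank_fintype_fun_eq_card, Fintype.card_coe]

/-- the boundary, restricted to the sets containing `e` -/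
def elD (e : Finset (Fin n)) :
    (Finset (Fin n) → ZMod 2) →ₗ[ZMod 2] (Finset (Fin n) → ZMod 2) where
  toFun c ρ := if e ⊆ ρ then bd c ρ else 0
  map_add' a b := by
    funext ρ
    by_cases h : e ⊆ ρ
    · simp only [if_pos h, Pi.add_apply, bd_add]
    · simp only [if_neg h, Pi.add_apply, add_zero]
  map_smul' r a := by
    funext ρ
    by_cases h : e ⊆ ρ
    · simp only [if_pos h, Pi.smul_apply, RingHom.id_apply]
      unfold bd
      rw [Finset.smul_sum]
      refine Finset.sum_congr rfl fun x _ => ?_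
      rw [Pi.smul_apply, smul_comm]
    · simp only [if_neg h, Pi.smul_apply, RingHom.id_apply, smul_zero]

/-- the faces with `k` elements containing `e` -/
def elF (K : Cx (Fin n)) (e : Finset (Fin n)) (k : ℕ) : Finset (Finset (Fin n)) :=
  K.faces.filter (fun σ => e ⊆ σ ∧ σ.card = k)

theorem elD_mem (K : Cx (Fin n)) (e : Finset (Fin n)) (k : ℕ) (c : Finset (Fin n) → ZMod 2)
    (hc : c ∈ elS (elF K e (k + 1))) : elD e c ∈ elS (elF K e k) := by
  intro ρ hρ
  show (if e ⊆ ρ then bd c ρ else 0) = 0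
  by_cases h : e ⊆ ρ
  · rw [if_pos h]
    unfold bd
    refine Finset.sum_eq_zero fun x hx => ?_
    have hx' := Finset.mem_compl.1 hx
    have h0 : c (insert x ρ) = 0 := by
      refine hc _ fun h2 => hρ ?_
      have h3 := Finset.mem_filter.1 h2
      refine Finset.mem_filter.2 ⟨K.down _ h3.1 _ (Finset.subset_insert _ _), h, ?_⟩
      have h4 := h3.2.2
      rw [Finset.card_insert_of_notMem hx'] at h4
      omega
    rw [h0, smul_zero]
  · rw [if_neg h]

/-- boundary map between the chain spaces -/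
def eld (K : Cx (Fin n)) (e : Finset (Fin n)) (k : ℕ) :
    elS (elF K e (k + 1)) →ₗ[ZMod 2] elS (elF K e k) :=
  ((elD e).domRestrict _).codRestrict _ (fun c => elD_mem K e k c.1 c.2)

theorem eld_apply (K : Cx (Fin n)) (e : Finset (Fin n)) (k : ℕ) (c : elS (elF K e (k + 1)))
    (ρ : Finset (Fin n)) : (eld K e k c).1 ρ = if e ⊆ ρ then bd c.1 ρ else 0 := rfl

theorem el_exact (K : Cx (Fin n)) (e : Finset (Fin n)) (k : ℕ)
    (h : Acy K (ZMod 2) e (k + 1)) :
    LinearMap.range (eld K e (k + 1)) = LinearMap.ker (eld K e k) := by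
  apply le_antisymm
  · rintro _ ⟨c, rfl⟩
    rw [LinearMap.mem_ker]
    apply Subtype.ext
    funext ρ
    rw [eld_apply]
    by_cases hρ : e ⊆ ρ
    · rw [if_pos hρ]
      have h1 : bd (eld K e (k + 1) c).1 ρ = bd (bd c.1) ρ := by
        refine bd_congr _ _ _ fun σ hσ => ?_
        rw [eld_apply, if_pos (hρ.trans hσ)]
      rw [h1, bd_bd]
      rfl
    · rw [if_neg hρ]
      rfl
  · intro c hc
    rw [LinearMap.mem_ker] at hc
    have hc' : ∀ ρ, e ⊆ ρ → bd c.1 ρ = 0 := by
      intro ρ hρ
      have h1 := congrFun (congrArg Subtype.val hc) ρ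
      rw [eld_apply, if_pos hρ] at h1
      exact h1
    obtain ⟨b, hb, hb2⟩ := h c.1 (by
      intro σ hσ
      have h1 : σ ∈ elF K e (k + 1) := by
        by_contra h2
        exact hσ (c.2 σ h2)
      have h3 := Finset.mem_filter.1 h1
      exact ⟨h3.1, h3.2.1, h3.2.2⟩) hc'
    refine ⟨⟨b, fun σ hσ => ?_⟩, ?_⟩
    · by_contra h1
      have h2 := hb σ h1
      exact hσ (Finset.mem_filter.2 ⟨h2.1, h2.2.1, h2.2.2⟩)
    · apply Subtype.ext
      funext ρ
      rw [eld_apply]
      by_cases hρ : e ⊆ ρ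
      · rw [if_pos hρ]; exact hb2 ρ hρ
      · rw [if_neg hρ]
        symm
        refine c.2 ρ fun h2 => hρ (Finset.mem_filter.1 h2).2.1

/-- the cycles in degree four are the kernel of the boundary -/
theorem top_finrank (K : Cx (Fin n)) (e : Finset (Fin n)) :
    Module.finrank (ZMod 2) (LinearMap.ker (eld K e 4)) =
      Module.finrank (ZMod 2) (topcyc K e) := by
  have h1 : topcyc K e = (LinearMap.ker (eld K e 4)).map (elS (elF K e (4 + 1))).subtype := by
    apply le_antisymm
    · rintro c ⟨h1, h2⟩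
      have hc : c ∈ elS (elF K e (4 + 1)) := by
        intro σ hσ
        refine h1 σ fun h3 => hσ (Finset.mem_filter.2 ⟨h3.1, h3.2.1, h3.2.2⟩)
      refine ⟨⟨c, hc⟩, ?_, rfl⟩
      rw [SetLike.mem_coe, LinearMap.mem_ker]
      apply Subtype.ext
      funext ρ
      rw [eld_apply]
      by_cases hρ : e ⊆ ρ
      · rw [if_pos hρ]; exact h2 ρ hρ
      · rw [if_neg hρ]; rfl
    · rintro _ ⟨c, hc, rfl⟩
      rw [SetLike.mem_coe, LinearMap.mem_ker] at hc
      refine ⟨fun σ hσ => ?_, fun ρ hρ => ?_⟩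
      · refine c.2 σ fun h3 => hσ ?_
        have h4 := Finset.mem_filter.1 h3
        exact ⟨h4.1, h4.2.1, h4.2.2⟩
      · have h1 := congrFun (congrArg Subtype.val hc) ρ
        rw [eld_apply, if_pos hρ] at h1
        exact h1
  rw [h1, Submodule.finrank_map_subtype_eq]

end EL

theorem rnk : StmRnk := by
  intro n K τ hne hd hacy
  classical
  have hac : ∀ k, k ≤ 4 → ZBase.Acy K (ZMod 2) τ k :=
    ZBase.acy_change (R := ℤ) (M := ZMod 2) K τ 4 (fun k hk => hacy k hk)
  have r0 := LinearMap.finrank_range_add_finrank_ker (eld K τ 0)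
  have r1 := LinearMap.finrank_range_add_finrank_ker (eld K τ 1)
  have r2 := LinearMap.finrank_range_add_finrank_ker (eld K τ 2)
  have r3 := LinearMap.finrank_range_add_finrank_ker (eld K τ 3)
  have r4 := LinearMap.finrank_range_add_finrank_ker (eld K τ 4)
  rw [elS_finrank] at r0
  rw [el_exact K τ 0 (hac 1 (by norm_num)), elS_finrank] at r1
  rw [el_exact K τ 1 (hac 2 (by norm_num)), elS_finrank] at r2
  rw [el_exact K τ 2 (hac 3 (by norm_num)), elS_finrank] at r3
  rw [el_exact K τ 3 (hac 4 (by norm_num)), elS_finrank, top_finrank] at r4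
  have hF0 : elF K τ 0 = ∅ := by
    unfold elF
    rw [Finset.filter_eq_empty_iff]
    rintro σ - ⟨h1, h2⟩
    have h3 := Finset.card_le_card h1
    have h4 := Finset.card_pos.2 hne
    omega
  have hr0 : Module.finrank (ZMod 2) (LinearMap.range (eld K τ 0)) = 0 := by
    have h1 := Submodule.finrank_le (LinearMap.range (eld K τ 0))
    rw [elS_finrank] at h1
    have h2 : (elF K τ 0).card = 0 := by rw [hF0]; rfl
    omega
  rw [hr0] at r0
  -- the sum
  have hsum : ∑ σ ∈ K.faces.filter (fun σ => τ ⊆ σ), (-1 : ℤ) ^ σ.card =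
      ∑ j ∈ Finset.range 6, (-1 : ℤ) ^ j * ((elF K τ j).card : ℤ) := by
    rw [← Finset.sum_fiberwise_of_maps_to (s := K.faces.filter (fun σ => τ ⊆ σ))
      (t := Finset.range 6) (g := fun σ => σ.card) (fun σ hσ => by
        rw [Finset.mem_range]
        have := hd σ (Finset.mem_filter.1 hσ).1
        omega)]
    refine Finset.sum_congr rfl fun j _ => ?_
    have h1 : (K.faces.filter (fun σ => τ ⊆ σ)).filter (fun σ => σ.card = j) = elF K τ j := by
      unfold elF
      rw [Finset.filter_filter]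
    rw [h1]
    have h2 : ∀ σ ∈ elF K τ j, (-1 : ℤ) ^ σ.card = (-1) ^ j := by
      intro σ hσ
      rw [(Finset.mem_filter.1 hσ).2.2]
    rw [Finset.sum_congr rfl h2, Finset.sum_const, nsmul_eq_mul, mul_comm]
  rw [hsum, Finset.sum_range_succ, Finset.sum_range_succ, Finset.sum_range_succ,
    Finset.sum_range_succ, Finset.sum_range_succ, Finset.sum_range_succ, Finset.sum_range_zero,
    hF0]
  have e1 : ((elF K τ 1).card : ℤ) = Module.finrank (ZMod 2) (LinearMap.ker (eld K τ 0)) := by
    have : (elF K τ (0 + 1)).card = (elF K τ 1).card := rfl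
    rw [← this, ← r0]
    push_cast
    ring
  have e2 : ((elF K τ 2).card : ℤ) = Module.finrank (ZMod 2) (LinearMap.ker (eld K τ 0)) +
      Module.finrank (ZMod 2) (LinearMap.ker (eld K τ 1)) := by
    have : (elF K τ (1 + 1)).card = (elF K τ 2).card := rfl
    rw [← this, ← r1]
    push_cast
    ring
  have e3 : ((elF K τ 3).card : ℤ) = Module.finrank (ZMod 2) (LinearMap.ker (eld K τ 1)) +
      Module.finrank (ZMod 2) (LinearMap.ker (eld K τ 2)) := by
    have : (elF K τ (2 + 1)).card = (elF K τ 3).card := rfl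
    rw [← this, ← r2]
    push_cast
    ring
  have e4 : ((elF K τ 4).card : ℤ) = Module.finrank (ZMod 2) (LinearMap.ker (eld K τ 2)) +
      Module.finrank (ZMod 2) (LinearMap.ker (eld K τ 3)) := by
    have : (elF K τ (3 + 1)).card = (elF K τ 4).card := rfl
    rw [← this, ← r3]
    push_cast
    ring
  have e5 : ((elF K τ 5).card : ℤ) = Module.finrank (ZMod 2) (LinearMap.ker (eld K τ 3)) +
      Module.finrank (ZMod 2) (topcyc K τ) := by
    have : (elF K τ (4 + 1)).card = (elF K τ 5).card := rfl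
    rw [← this, ← r4]
    push_cast
    ring
  rw [e1, e2, e3, e4, e5, Finset.card_empty]
  push_cast
  ring

end Pool.Agent.K3h41.LCT
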