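import Pool.Agent.K3h88.LCT.Stm

/-!
Bricks SUM and EUL of the project LCT of helper88: two Euler characteristic identities.
-/

set_option autoImplicit false

namespace Pool.Agent.K3h41.LCT

open Finset Pool.Agent.Helper611 Pool.Agent.K3h88.LCT
open Pool.Agent.K3h88.LCM hiding mem_faces

theorem sum' : StmSum := by
  intro n F h
  classical
  have hBN : faces (tets F 1) ⊆ faces F := by
    intro s hs
    rw [mem_faces] at hs ⊢
    obtain ⟨h1, t, ht, hst⟩ := hs
    have h2 := (Finset.mem_filter.1 ht).1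
    rw [mem_faces] at h2
    obtain ⟨-, A, hA, htA⟩ := h2
    exact ⟨h1, A, hA, hst.trans htA⟩
  set N := faces F with hN
  set B := faces (tets F 1) with hB
  -- the double sum
  have h1 : ∑ τ ∈ N, (-1 : ℤ) ^ τ.card * ∑ σ ∈ N.filter (fun σ => τ ⊆ σ), (-1 : ℤ) ^ σ.card =
      ∑ τ ∈ N, (-1 : ℤ) ^ τ.card * (if τ ∈ B then 0 else -1) := by
    refine Finset.sum_congr rfl fun τ hτ => ?_
    rw [← h τ hτ]
    congr 1
    refine Finset.sum_congr ?_ fun _ _ => rfl
    have hne : τ.Nonempty := (mem_faces.1 hτ).1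
    ext σ
    show σ ∈ N.filter (fun σ => τ ⊆ σ) ↔ σ ∈ (insert ∅ (faces F)).filter (fun σ => τ ⊆ σ)
    rw [Finset.mem_filter, Finset.mem_filter, Finset.mem_insert]
    constructor
    · rintro ⟨h1, h2⟩
      exact ⟨Or.inr h1, h2⟩
    · rintro ⟨h1 | h1, h2⟩
      · exfalso
        rw [h1] at h2
        exact hne.ne_empty (Finset.subset_empty.1 h2)
      · exact ⟨h1, h2⟩
  have h2 : ∑ τ ∈ N, (-1 : ℤ) ^ τ.card * ∑ σ ∈ N.filter (fun σ => τ ⊆ σ), (-1 : ℤ) ^ σ.card =
      ∑ σ ∈ N, (-1 : ℤ) ^ σ.card * (-1) := by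
    have h3 : ∑ τ ∈ N, (-1 : ℤ) ^ τ.card * ∑ σ ∈ N.filter (fun σ => τ ⊆ σ), (-1 : ℤ) ^ σ.card =
        ∑ τ ∈ N, ∑ σ ∈ N, if τ ⊆ σ then (-1 : ℤ) ^ σ.card * (-1 : ℤ) ^ τ.card else 0 := by
      refine Finset.sum_congr rfl fun τ _ => ?_
      rw [Finset.mul_sum, Finset.sum_filter]
      refine Finset.sum_congr rfl fun σ _ => ?_
      by_cases h4 : τ ⊆ σ
      · rw [if_pos h4, if_pos h4, mul_comm]
      · rw [if_neg h4, if_neg h4]
    rw [h3, Finset.sum_comm]
    refine Finset.sum_congr rfl fun σ hσ => ?_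
    have hne : σ.Nonempty := (mem_faces.1 hσ).1
    rw [← Finset.sum_filter, ← Finset.mul_sum]
    congr 1
    have h4 : N.filter (fun τ => τ ⊆ σ) = σ.powerset.erase ∅ := by
      ext τ
      rw [Finset.mem_filter, Finset.mem_erase, Finset.mem_powerset]
      constructor
      · rintro ⟨h5, h6⟩
        exact ⟨(mem_faces.1 h5).1.ne_empty, h6⟩
      · rintro ⟨h5, h6⟩
        refine ⟨?_, h6⟩
        obtain ⟨-, A, hA, hσA⟩ := mem_faces.1 hσ
        exact mem_faces.2 ⟨Finset.nonempty_iff_ne_empty.2 h5, A, hA, h6.trans hσA⟩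
    rw [h4]
    have h5 := Finset.sum_powerset_neg_one_pow_card_of_nonempty hne
    have h6 := Finset.sum_erase_eq_sub (f := fun τ : Finset (Fin n) => (-1 : ℤ) ^ τ.card)
      (Finset.empty_mem_powerset σ)
    rw [h6, h5]
    simp
  have h3 : ∑ σ ∈ N, (-1 : ℤ) ^ σ.card * (-1) =
      ∑ τ ∈ N, (-1 : ℤ) ^ τ.card * (if τ ∈ B then 0 else -1) := h2.symm.trans h1
  have h4 : ∑ σ ∈ N, (if σ ∈ B then (-1 : ℤ) ^ (σ.card + 1) else 0) = 0 := by
    have h5 : ∀ σ ∈ N, (if σ ∈ B then (-1 : ℤ) ^ (σ.card + 1) else 0) =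
        (-1 : ℤ) ^ σ.card * (-1) - (-1 : ℤ) ^ σ.card * (if σ ∈ B then 0 else -1) := by
      intro σ _
      by_cases h6 : σ ∈ B
      · rw [if_pos h6, if_pos h6, pow_succ]
        ring
      · rw [if_neg h6, if_neg h6]
        ring
    rw [Finset.sum_congr rfl h5, Finset.sum_sub_distrib, h3, sub_self]
  unfold euler
  rw [← hB]
  rw [← Finset.sum_filter] at h4
  have h5 : N.filter (fun σ => σ ∈ B) = B := by
    ext σ
    rw [Finset.mem_filter]
    exact ⟨fun h => h.2, fun h => ⟨hBN h, h⟩⟩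
  rw [h5] at h4
  exact h4

theorem eul : StmEul := by
  intro n S
  classical
  unfold euler Helper585.Wk.Cx.chi Helper585.Wk.Cx.f
  rw [← Finset.sum_fiberwise_of_maps_to (s := faces S) (t := Finset.range n)
    (g := fun σ => σ.card - 1) (fun σ hσ => by
      rw [Finset.mem_range]
      have h1 : 0 < σ.card := Finset.card_pos.2 (mem_faces.1 hσ).1
      have h2 : σ.card ≤ n := by
        have := Finset.card_le_univ σ
        rwa [Fintype.card_fin] at this
      omega)]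
  refine Finset.sum_congr rfl fun j _ => ?_
  have h1 : (kw S).faces.filter (fun σ => σ.card = j + 1) =
      (faces S).filter (fun σ => σ.card - 1 = j) := by
    ext σ
    show σ ∈ (insert ∅ (faces S)).filter (fun σ => σ.card = j + 1) ↔ _
    rw [Finset.mem_filter, Finset.mem_filter, Finset.mem_insert]
    constructor
    · rintro ⟨h1 | h1, h2⟩
      · rw [h1, Finset.card_empty] at h2
        omega
      · exact ⟨h1, by omega⟩
    · rintro ⟨h1, h2⟩
      have h3 : 0 < σ.card := Finset.card_pos.2 (mem_faces.1 h1).1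
      exact ⟨Or.inr h1, by omega⟩
  rw [h1]
  have h2 : ∀ σ ∈ (faces S).filter (fun σ => σ.card - 1 = j), (-1 : ℤ) ^ (σ.card + 1) =
      (-1) ^ j := by
    intro σ hσ
    obtain ⟨h3, h4⟩ := Finset.mem_filter.1 hσ
    have h5 : 0 < σ.card := Finset.card_pos.2 (mem_faces.1 h3).1
    have h6 : σ.card + 1 = j + 2 := by omega
    rw [h6, pow_add]
    norm_num
  rw [Finset.sum_congr rfl h2, Finset.sum_const, nsmul_eq_mul, mul_comm]

end Pool.Agent.K3h41.LCT
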